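import Pool.Agent.SZG.StmtsM

/-!
# SZG row TEN: size of a tensor product of two vectors
-/

set_option autoImplicit false

namespace Pool.Agent.SZG.H25

open scoped BigOperators
open Pool.Agent.THS

theorem ten (h1 : RgiStmt) (h2 : THS.FoiStatement) : TenStmt := by
  intro K I _ _ v g E L0 c e s T x hQ hna hv2 i j
  have hle : ∀ {ι : Type} [Finite ι] (y : ι → K) (p : ι), v (y p) ≤ nv v y := by
    intro ι _ y p
    exact le_ciSup (f := fun i => v (y i)) (Set.finite_range _).bddAbove p
  have hnn : ∀ {ι : Type} (y : ι → K), 0 ≤ nv v y := by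
    intro ι y
    exact Real.iSup_nonneg fun _ => v.nonneg _
  have hF := h2 K v g (fun t => RG T t.1 t.2 i j) hna hv2
  have e1 : (fun t : Ch g × Ch g => ∑ b : Ch g, (sgn b (t.1 + t.2) : K) * RG T t.1 b i j) =
      fun t : Ch g × Ch g => (2 : K) ^ g * (T (i + j) (t.1 + t.2) * T (i - j) t.2) := by
    funext t
    exact h1 g K I T t.1 t.2 i j
  have e2 : nv v (fun t : Ch g × Ch g => RG T t.1 t.2 i j) =
      v s * nv v (fun t => x i t * x j t) := by
    unfold nv
    rw [Real.mul_iSup_of_nonneg (v.nonneg s)]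
    refine iSup_congr fun t => ?_
    show v (RG T t.1 t.2 i j) = v s * v (x i t * x j t)
    rw [hQ.rie t.1 t.2 i j, map_mul]
  have e3 : nv v (fun t : Ch g × Ch g => ∑ b : Ch g, (sgn b (t.1 + t.2) : K) * RG T t.1 b i j) =
      nv v (T (i + j)) * nv v (T (i - j)) := by
    rw [e1]
    have hval : ∀ a b : Ch g, v ((2 : K) ^ g * (T (i + j) a * T (i - j) b)) =
        v (T (i + j) a) * v (T (i - j) b) := by
      intro a b
      rw [map_mul, map_pow, hv2, one_pow, one_mul, map_mul]
    refine le_antisymm (ciSup_le fun t => ?_) ?_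
    · rw [hval]
      exact mul_le_mul (hle _ _) (hle _ _) (v.nonneg _) (hnn _)
    · obtain ⟨a, ha⟩ := exists_eq_ciSup_of_finite (f := fun a => v (T (i + j) a))
      obtain ⟨d, hd⟩ := exists_eq_ciSup_of_finite (f := fun a => v (T (i - j) a))
      have h := hle (fun t : Ch g × Ch g => (2 : K) ^ g * (T (i + j) (t.1 + t.2) * T (i - j) t.2))
        (a - d, d)
      have h' : v ((2 : K) ^ g * (T (i + j) (a - d + d) * T (i - j) d)) ≤
          nv v (fun t : Ch g × Ch g => (2 : K) ^ g * (T (i + j) (t.1 + t.2) * T (i - j) t.2)) := h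
      rw [hval, sub_add_cancel] at h'
      calc nv v (T (i + j)) * nv v (T (i - j)) = v (T (i + j) a) * v (T (i - j) d) := by
            unfold nv
            rw [← ha, ← hd]
        _ ≤ _ := h'
  rw [← e3, hF, e2]

end Pool.Agent.SZG.H25
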